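import Mathlib
import Pool.Agent.Lib.MP_b004e2_gt.Main

/-!
Reconstruction for a general locally transitive action with enough flows.
-/

set_option autoImplicit false

namespace Pool.Agent.Lib.MP_b004e2_gt

open Set Filter Topology Metric

theorem flow_image' {G X N : Type*} [Group G] [TopologicalSpace X] [MulAction G X] [T2Space X]
    [RegularSpace X] [SecondCountableTopology X] [TopologicalSpace N] [T2Space N]
    [LocallyCompactSpace N] [SecondCountableTopology N] (H : LM G X) {f : N → ℝ}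
    (hf : Continuous f) (ρ : G →* (N ≃ₜ N)) (hinj : Function.Injective ρ)
    (hr : ∀ T : N ≃ₜ N, (∃ g, ρ g = T) ↔ ∀ p, f (T p) = f p) (c : ℝ → G)
    (hmul : ∀ s t, c (s + t) = c s * c t) (hc' : ∀ x : X, Continuous fun t => c t • x) :
    ∃ χ : Flow ℝ N, ∀ t p, χ t p = ρ (c t) p := by
  have := secondCountable_onePoint N
  let : MetricSpace (OnePoint N) := TopologicalSpace.metrizableSpaceMetric _
  let ρ' : G → C(OnePoint N, OnePoint N) := fun g => (ρ g).onePointCongr
  have hc : ∀ g (p : N), ρ' g p = (ρ g p : N) := fun g p => rfl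
  have hi : ∀ g, ρ' g OnePoint.infty = OnePoint.infty := fun g => rfl
  have key := kallman H ρ' (fun a b k => by
      induction k using OnePoint.rec with
      | infty => rfl
      | coe k => rw [hc, hc, hc, map_mul]; rfl)
    (fun a b hab => hinj (Homeomorph.ext fun p => OnePoint.coe_injective (by
      rw [← hc, ← hc, hab])))
    (fun k => by
      induction k using OnePoint.rec with
      | infty => rfl
      | coe k => rw [hc, map_one]; rfl) ?_ c hmul hc'
  · refine ⟨⟨fun t p => ρ (c t) p, ?_, fun s t p => by rw [hmul, map_mul]; rfl,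
      fun p => ?_⟩, fun _ _ => rfl⟩
    · rw [OnePoint.isOpenEmbedding_coe.isInducing.continuous_iff]
      exact (key.comp continuous_fst).eval (OnePoint.continuous_coe.comp continuous_snd)
    · rw [show c 0 = 1 from mul_left_cancel (a := c 0) (by rw [← hmul, add_zero, mul_one]), map_one]
      rfl
  · have : (range fun g => (ρ' g, ρ' g⁻¹)) =
        {u | (∀ k, u.1 (u.2 k) = k) ∧ (∀ k, u.2 (u.1 k) = k) ∧ u.1 OnePoint.infty = OnePoint.infty ∧
          ∀ p : N, u.1 p ∈ (((↑) : N → OnePoint N) '' {q | f q ≠ f p})ᶜ} := by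
      ext u
      constructor
      · rintro ⟨g, rfl⟩
        refine ⟨fun k => ?_, fun k => ?_, rfl, fun p => ?_⟩
        · induction k using OnePoint.rec with
          | infty => rfl
          | coe k => simp only [hc, map_inv]; exact congrArg _ ((ρ g).apply_symm_apply k)
        · induction k using OnePoint.rec with
          | infty => rfl
          | coe k => simp only [hc, map_inv]; exact congrArg _ ((ρ g).symm_apply_apply k)
        · rintro ⟨q, h1, h2⟩
          rw [hc] at h2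
          exact h1 (OnePoint.coe_injective h2 ▸ (hr _).1 ⟨g, rfl⟩ p)
      · rintro ⟨h1, h2, h3, h4⟩
        have h3' : u.2 OnePoint.infty = OnePoint.infty := by
          conv_lhs => rw [← h3]
          exact h2 _
        have e1 : ∀ p : N, ∃ q : N, (q : OnePoint N) = u.1 p := fun p =>
          OnePoint.ne_infty_iff_exists.1 fun h => by
            have := h2 p
            rw [h, h3'] at this
            exact OnePoint.infty_ne_coe p this
        have e2 : ∀ p : N, ∃ q : N, (q : OnePoint N) = u.2 p := fun p =>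
          OnePoint.ne_infty_iff_exists.1 fun h => by
            have := h1 p
            rw [h, h3] at this
            exact OnePoint.infty_ne_coe p this
        choose a ha using e1
        choose b hb using e2
        let T : N ≃ₜ N := ⟨⟨a, b, fun p => OnePoint.coe_injective (by rw [hb, ha, h2]),
          fun p => OnePoint.coe_injective (by rw [ha, hb, h1])⟩,
          OnePoint.isOpenEmbedding_coe.isInducing.continuous_iff.2
            ((u.1.continuous.comp OnePoint.continuous_coe).congr fun p => (ha p).symm),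
          OnePoint.isOpenEmbedding_coe.isInducing.continuous_iff.2
            ((u.2.continuous.comp OnePoint.continuous_coe).congr fun p => (hb p).symm)⟩
        obtain ⟨g, hg⟩ := (hr T).2 fun p => not_not.1 fun h => h4 p ⟨a p, h, ha p⟩
        refine ⟨g, Prod.ext (ContinuousMap.ext fun k => ?_) (ContinuousMap.ext fun k => ?_)⟩
        · induction k using OnePoint.rec with
          | infty => exact h3.symm
          | coe k => simp only [hc, hg]; exact ha k
        · induction k using OnePoint.rec with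
          | infty => exact h3'.symm
          | coe k => simp only [hc, map_inv, hg]; exact hb k
    rw [this]
    simp only [ofPred_and, ofPred_forall]
    refine (isClosed_iInter fun k => isClosed_eq (by fun_prop) continuous_const).inter
      ((isClosed_iInter fun k => isClosed_eq (by fun_prop) continuous_const).inter
      ((isClosed_eq (by fun_prop) continuous_const).inter (isClosed_iInter fun p => ?_)))
    exact (OnePoint.isOpenMap_coe _ (isOpen_ne_fun hf continuous_const)).isClosed_compl.preimage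
      (show Continuous fun u : C(OnePoint N, OnePoint N) × C(OnePoint N, OnePoint N) => u.1 p by
        fun_prop)

theorem LM.dense_lc {G X Y : Type*} [Group G] [TopologicalSpace X] [MulAction G X] [T2Space X]
    [TopologicalSpace Y] [MulAction G Y] [T2Space Y] (HX : LM G X) (HY : LM G Y) (TX : LocTr G X)
    {f : Y → ℝ} (hf : Continuous f) (hi : ∀ (g : G) y, f (g • y) = f y) {U : Set Y}
    (hU : IsOpen U) (hne : U.Nonempty) : ∃ y ∈ U, ∀ᶠ z in 𝓝 y, f z = f y := by
  obtain ⟨a, ha, ha'⟩ := HY.mov U hU hne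
  obtain ⟨x, hx⟩ := HX.exists_mem ha
  obtain ⟨W, hW, hWo, hxW⟩ := mem_nhds_iff.1 (TX x univ isOpen_univ (mem_univ x))
  obtain ⟨h, h1, h2⟩ := HX.mov _ (hWo.inter (isOpen_supp HX.cont a)) ⟨x, hxW, hx⟩
  obtain ⟨y₀, hy₀⟩ := HY.exists_mem h1
  obtain ⟨y, hy, hy'⟩ := mem_closure_iff.1 (HX.transfer HY (fun z hz => (h2 hz).2) hy₀) _
    (isOpen_supp HY.cont h) hy₀
  have pt : ∀ k : G, k ≠ 1 → supp Y k ⊆ supp Y h → ∃ g : G, g • x ∈ supp X k := by
    intro k hk hk'
    obtain ⟨p, hp⟩ := HX.exists_mem hk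
    obtain ⟨q, hq, hq'⟩ := mem_closure_iff.1 (HY.transfer HX hk' hp) _ (isOpen_supp HX.cont k) hp
    obtain ⟨g, -, rfl⟩ := hW (h2 hq').1
    exact ⟨g, hq⟩
  have key : ∀ z ∈ supp Y h, ∀ z' ∈ supp Y h, ¬ f z < f z' := by
    intro z hz z' hz' hlt
    obtain ⟨c, c1, c2⟩ := exists_between hlt
    obtain ⟨u, hu, hu'⟩ := HY.mov _ ((isOpen_lt hf continuous_const).inter
      (isOpen_supp HY.cont h)) ⟨z, c1, hz⟩
    obtain ⟨b, hb, hb'⟩ := HY.exists_pow ((isOpen_lt continuous_const hf).inter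
      (isOpen_supp HY.cont h)) ⟨z', c2, hz'⟩
    obtain ⟨g, hg⟩ := pt u hu fun w hw => (hu' hw).2
    obtain ⟨g', hg'⟩ := pt _ hb' fun w hw => (hb (supp_pow b 12 hw)).2
    refine hg' (HX.of_algDisj (HY.algDisj (f := (g' * g⁻¹) * u * (g' * g⁻¹)⁻¹) (g := b)
      fun w hw => smul_eq_of_notMem hb fun h' => ?_) _ (mem_supp_conj.2 (by
        simpa [mul_smul] using hg)))
    have e1 : f ((g' * g⁻¹)⁻¹ • w) < c := (hu' (mem_supp_conj.1 hw)).1
    rw [hi] at e1
    exact lt_asymm e1 h'.1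
  refine ⟨y, ha' hy', ?_⟩
  filter_upwards [(isOpen_supp HY.cont h).mem_nhds hy] with z hz
  exact le_antisymm (not_lt.1 (key y hy z hz)) (not_lt.1 (key z hz y hy))

theorem core' {G X E' N : Type*} [Group G] [TopologicalSpace X] [MulAction G X] [T2Space X]
    [LocallyCompactSpace X] [SecondCountableTopology X]
    [NormedAddCommGroup E'] [NormedSpace ℝ E'] [ProperSpace E']
    [TopologicalSpace N] [T2Space N] [SecondCountableTopology N] [ChartedSpace E' N]
    (HM : LM G X) (TM : LocTr G X)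
    (hmov : ∀ (x : X) (U : Set X), IsOpen U → x ∈ U → ∃ c : ℝ → G,
      (∀ s t, c (s + t) = c s * c t) ∧ (∀ x : X, Continuous fun t => c t • x) ∧
        supp X (c 1) ⊆ U ∧ c 1 ≠ 1)
    {f : N → ℝ} (hf : Continuous f) (ρ : G →* (N ≃ₜ N)) (hinj : Function.Injective ρ)
    (hr : ∀ T : N ≃ₜ N, (∃ g, ρ g = T) ↔ ∀ p, f (T p) = f p) :
    ∃ φ : X → N, IsOpenEmbedding φ ∧ (∀ g x, ρ g (φ x) = φ (g • x)) ∧
      (∀ x, ∀ᶠ z in 𝓝 (φ x), f z = f (φ x)) ∧
      ∀ y, (𝓝[≠] y).NeBot → (∀ᶠ z in 𝓝 y, f z = f y) → y ∈ range φ := by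
  have := ChartedSpace.locallyCompactSpace E' N
  have hρ : ∀ g p, f (ρ g p) = f p := fun g => (hr _).1 ⟨g, rfl⟩
  let Y : Set N := {y | ∃ χ : Flow ℝ N, (∀ t p, f (χ t p) = f p) ∧ ∃ t, χ t y ≠ y}
  have hY : IsOpen Y := by
    rw [isOpen_iff_mem_nhds]
    rintro y ⟨χ, h1, t, h2⟩
    filter_upwards [(isOpen_ne_fun (χ.continuous_toFun t) continuous_id).mem_nhds h2] with z hz
    exact ⟨χ, h1, t, hz⟩
  have hYi : ∀ (g : G), ∀ y ∈ Y, ρ g y ∈ Y := by
    rintro g y ⟨χ, h1, t, h2⟩
    refine ⟨⟨fun t p => ρ g (χ t ((ρ g).symm p)), ?_, fun s t p => ?_, fun p => ?_⟩,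
      fun t p => ?_, t, ?_⟩
    · exact (ρ g).continuous.comp
        (χ.continuous continuous_fst ((ρ g).symm.continuous.comp continuous_snd))
    · rw [Homeomorph.symm_apply_apply, χ.map_add]
    · rw [χ.map_zero_apply, Homeomorph.apply_symm_apply]
    · show f (ρ g (χ t ((ρ g).symm p))) = f p
      rw [hρ, h1, ← hρ g, Homeomorph.apply_symm_apply]
    · show ρ g (χ t ((ρ g).symm (ρ g y))) ≠ ρ g y
      rw [Homeomorph.symm_apply_apply]
      exact fun h => h2 ((ρ g).injective h)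
  have hfaith : ∀ g : G, (∀ y ∈ Y, ρ g y = y) → g = 1 := by
    intro g hg
    by_contra hne
    obtain ⟨x, hx⟩ := HM.exists_mem hne
    obtain ⟨V, h1, h2, -, h3⟩ := exists_displace_one HM.cont hx isOpen_univ (mem_univ x)
    obtain ⟨c, c1, c2, h4, h5⟩ := hmov x V h1 h2
    obtain ⟨χ, hχ⟩ := flow_image' HM hf ρ hinj hr c c1 c2
    let := homeoAct N
    have h6 : ρ (c 1) * ρ g = ρ g * ρ (c 1) :=
      commute_of_disjoint (X := N) (fun g h => Homeomorph.ext h) fun p hp =>
        hg p ⟨χ, fun t q => by rw [hχ, hρ], 1, by rw [hχ]; exact hp⟩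
    rw [← map_mul, ← map_mul] at h6
    exact h5 (HM.eq_one h4 h3 (hinj h6).symm)
  have act : ∀ (Z : Set N) (hZ : ∀ (g : G), ∀ y ∈ Z, ρ g y ∈ Z), IsOpen Z → Z ⊆ Y →
      (∀ g : G, (∀ y ∈ Z, ρ g y = y) → g = 1) →
      ∃ a : MulAction G Z, (∀ (g : G) (y : Z), ((g • y : Z) : N) = ρ g y) ∧ LM G Z := by
    intro Z hZ hZo hZY hZf
    let : MulAction G Z :=
      { smul := fun g y => ⟨ρ g y, hZ g y y.2⟩
        one_smul := fun y => Subtype.ext (by show ρ 1 y = y; rw [map_one]; rfl)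
        mul_smul := fun a b y => Subtype.ext (by show ρ (a * b) y = _; rw [map_mul]; rfl) }
    refine ⟨this, fun _ _ => rfl,
      fun g => ((ρ g).continuous.comp continuous_subtype_val).subtype_mk _,
      fun g hg => hZf g fun y hy => congrArg Subtype.val (hg ⟨y, hy⟩), fun U hU ⟨y, hy⟩ => ?_⟩
    obtain ⟨χ, h1, t, h2⟩ := hZY y.2
    obtain ⟨T, h3, h4, h5⟩ := exists_shift χ h2 (hZo.isOpenMap_subtype_val U hU) ⟨y, hy, rfl⟩
    obtain ⟨g, rfl⟩ := (hr T).2 fun p => by
      obtain ⟨s, hs⟩ := h5 p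
      rw [hs, h1]
    refine ⟨g, fun h => h3 (by rw [h, map_one]; rfl), fun p hp => ?_⟩
    by_contra hc
    exact hp (Subtype.ext (h4 p fun ⟨q, h6, h7⟩ => hc (Subtype.ext h7 ▸ h6)))
  let Z : Set N := Y ∩ {y | ∀ᶠ z in 𝓝 y, f z = f y}
  have hlc : IsOpen {y | ∀ᶠ z in 𝓝 y, f z = f y} := by
    rw [isOpen_iff_mem_nhds]
    intro y hy
    filter_upwards [hy, eventually_eventually_nhds.2 hy] with z h1 h2
    exact h2.mono fun w hw => hw.trans h1.symm
  have hZ : IsOpen Z := hY.inter hlc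
  have hZi : ∀ (g : G), ∀ y ∈ Z, ρ g y ∈ Z := fun g y hy => ⟨hYi g y hy.1, by
    have h1 : ∀ᶠ z in 𝓝 ((ρ g).symm (ρ g y)), f z = f y := by
      rw [Homeomorph.symm_apply_apply]; exact hy.2
    filter_upwards [(ρ g).symm.continuous.continuousAt.eventually h1] with z hz
    rw [hρ, ← hz, ← hρ g ((ρ g).symm z), Homeomorph.apply_symm_apply]⟩
  have hZf : ∀ g : G, (∀ y ∈ Z, ρ g y = y) → g = 1 := by
    intro g hg
    refine hfaith g fun y hy => ?_
    by_contra hne
    obtain ⟨a, hsm, HY⟩ := act Y hYi hY subset_rfl hfaith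
    obtain ⟨z, h1, h2⟩ := HM.dense_lc HY TM (f := fun z : Y => f z)
      (hf.comp continuous_subtype_val) (fun g y => by rw [hsm, hρ]) (isOpen_supp HY.cont g)
      ⟨⟨y, hy⟩, fun h => hne (by rw [← hsm g ⟨y, hy⟩, h])⟩
    refine h1 (Subtype.ext (by
      rw [hsm]
      refine hg z ⟨z.2, ?_⟩
      show ∀ᶠ w in 𝓝 (z : N), f w = f z
      rw [← hY.isOpenEmbedding_subtypeVal.map_nhds_eq]
      exact h2))
  obtain ⟨a, hsm, HY⟩ := act Z hZi hZ inter_subset_left hZf
  have TY : LocTr G Z := fun y U hU hy => by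
    obtain ⟨O, o1, o2, o3⟩ := mem_nhds_iff.1 y.2.2
    obtain ⟨K, -, h2, h3⟩ := exists_flows (E := E') (y : N)
      ((hZ.isOpenMap_subtype_val U hU).inter o2) ⟨⟨y, hy, rfl⟩, o3⟩
    filter_upwards [continuous_subtype_val.continuousAt.preimage_mem_nhds h3]
    rintro z ⟨χ, h4, h5⟩
    obtain ⟨g, hg⟩ := (hr (χ.toHomeomorph 1)).2 fun p => by
      by_cases hp : p ∈ K
      · rw [Flow.toHomeomorph_apply]
        exact (o1 (h2 (flow_mem χ h4 1 hp)).2).trans (o1 (h2 hp).2).symm
      · rw [Flow.toHomeomorph_apply, h4 1 p hp]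
    refine ⟨g, fun p hp => ?_, Subtype.ext (by rw [hsm, hg]; exact h5)⟩
    by_contra hc
    refine hp (Subtype.ext ?_)
    rw [hsm, hg]
    exact h4 1 p fun h => let ⟨q, h6, h7⟩ := (h2 h).1; hc (Subtype.ext h7 ▸ h6)
  have := hZ.locallyCompactSpace
  obtain ⟨φ, hφ⟩ := exists_homeomorph HM HY TM TY
  refine ⟨fun x => φ x, hZ.isOpenEmbedding_subtypeVal.comp φ.isOpenEmbedding,
    fun g x => (hsm g (φ x)).symm.trans (congrArg Subtype.val (hφ g x).symm),
    fun x => (φ x).2.2, fun y hy h => ?_⟩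
  obtain ⟨O, h1, h2, h3⟩ := mem_nhds_iff.1 h
  obtain ⟨K, -, h4, h5⟩ := exists_flows (E := E') y h2 h3
  obtain ⟨_, ⟨χ, h6, rfl⟩, h7⟩ := Filter.nonempty_of_mem (inter_mem
    (mem_nhdsWithin_of_mem_nhds h5 : _ ∈ 𝓝[≠] y) (self_mem_nhdsWithin (s := {y}ᶜ)))
  have : y ∈ Y := ⟨χ, fun t p => by
    by_cases hp : p ∈ K
    · rw [h1 (h4 hp), h1 (h4 (flow_mem χ h6 t hp))]
    · rw [h6 t p hp], 1, h7⟩
  exact ⟨φ.symm ⟨y, this, h⟩, by simp⟩

end Pool.Agent.Lib.MP_b004e2_gt
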