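import Mathlib
import Pool.Agent.Lib.MP_b004e2_gt.CL.Core2

/-!
The group of a function acts on the set where the function is locally constant.
-/

set_option autoImplicit false

namespace Pool.Agent.Lib.MP_b004e2_gt

open Set Filter Topology Metric Function

/-- The set where `f` is locally constant. -/
def lc {M : Type*} [TopologicalSpace M] (f : M → ℝ) : Set M := {y | ∀ᶠ z in 𝓝 y, f z = f y}

theorem isOpen_lc {M : Type*} [TopologicalSpace M] (f : M → ℝ) : IsOpen (lc f) := by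
  rw [isOpen_iff_mem_nhds]
  intro y hy
  filter_upwards [hy, eventually_eventually_nhds.2 hy] with z h1 h2
  exact h2.mono fun w hw => hw.trans h1.symm

theorem lc_map {M : Type*} [TopologicalSpace M] {f : M → ℝ} (T : M ≃ₜ M)
    (hT : ∀ p, f (T p) = f p) {y : M} (hy : y ∈ lc f) : T y ∈ lc f := by
  have h1 : ∀ᶠ z in 𝓝 (T.symm (T y)), f z = f y := by
    rw [Homeomorph.symm_apply_apply]; exact hy
  filter_upwards [T.symm.continuous.continuousAt.eventually h1] with z hz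
  rw [hT, ← hz, ← hT (T.symm z), Homeomorph.apply_symm_apply]

theorem lc_const {M : Type*} [TopologicalSpace M] {f : M → ℝ} {P : Set M} (hP : IsPreconnected P)
    (h : P ⊆ lc f) {x y : M} (hx : x ∈ P) (hy : y ∈ P) : f x = f y :=
  hP.induction₂ (fun x y => f x = f y)
    (fun _ hz => mem_nhdsWithin_of_mem_nhds ((h hz).mono fun _ hw => hw.symm))
    (fun _ _ _ _ _ _ => Eq.trans) (fun _ _ _ _ => Eq.symm) hx hy

theorem neBot_of_chart (E : Type*) {M : Type*} [NormedAddCommGroup E] [NormedSpace ℝ E]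
    [Nontrivial E] [TopologicalSpace M] [T2Space M] [ChartedSpace E M] (x : M) :
    (𝓝[≠] x).NeBot := by
  obtain ⟨J, hJ, rfl⟩ := exists_isOpenEmbedding (E := E) x
  have := Module.punctured_nhds_neBot ℝ E 0
  exact (tendsto_nhdsWithin_iff.2 ⟨hJ.continuous.continuousWithinAt,
    eventually_nhdsWithin_of_forall fun z hz h => hz (hJ.injective h)⟩ :
      Tendsto J (𝓝[≠] 0) (𝓝[≠] (J 0))).neBot

theorem core_level (E E' : Type*) {M N : Type} [NormedAddCommGroup E] [NormedSpace ℝ E]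
    [ProperSpace E] [Nontrivial E] [NormedAddCommGroup E'] [NormedSpace ℝ E'] [ProperSpace E']
    [TopologicalSpace M] [T2Space M] [SecondCountableTopology M] [ChartedSpace E M]
    [TopologicalSpace N] [T2Space N] [SecondCountableTopology N] [ChartedSpace E' N]
    {f₀ : M → ℝ} (hfa : ∀ T : levelGroup f₀, (∀ x ∈ lc f₀, T.1 x = x) → ∀ x, T.1 x = x)
    {f : N → ℝ} (hf : Continuous f) (Φ : levelGroup f₀ ≃* levelGroup f) :
    ∃ φ : lc f₀ → N, IsOpenEmbedding φ ∧
      (∀ (g : levelGroup f₀) (x x' : lc f₀), g.1 x = x' → (Φ g).1 (φ x) = φ x') ∧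
      (∀ x, φ x ∈ lc f) ∧ ∀ y, (𝓝[≠] y).NeBot → y ∈ lc f → y ∈ range φ := by
  have := ChartedSpace.locallyCompactSpace E M
  have ho := isOpen_lc f₀
  have := ho.locallyCompactSpace
  let : MulAction (levelGroup f₀) (lc f₀) :=
    { smul := fun g y => ⟨g.1 y, lc_map g.1 g.2 y.2⟩
      one_smul := fun y => rfl
      mul_smul := fun a b y => rfl }
  have hsm : ∀ (g : levelGroup f₀) (y : lc f₀), ((g • y : lc f₀) : M) = g.1 y := fun _ _ => rfl
  have hfl : ∀ (x : lc f₀) (U : Set (lc f₀)), IsOpen U → x ∈ U → {z : M | ∃ c : ℝ → levelGroup f₀,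
      (∀ s t, c (s + t) = c s * c t) ∧ (∀ x : lc f₀, Continuous fun t => c t • x) ∧
        supp (lc f₀) (c 1) ⊆ U ∧ (c 1).1 x = z} ∈ 𝓝 (x : M) := by
    intro x U hU hx
    obtain ⟨O, o1, o2, o3⟩ := _root_.mem_nhds_iff.1 x.2
    obtain ⟨K, -, h2, h3⟩ := exists_flows (E := E) (x : M)
      ((ho.isOpenMap_subtype_val U hU).inter o2) ⟨⟨x, hx, rfl⟩, o3⟩
    filter_upwards [h3]
    rintro _ ⟨χ, h4, rfl⟩
    refine ⟨fun t => ⟨χ.toHomeomorph t, fun p => ?_⟩,
      fun s t => Subtype.ext (Homeomorph.ext fun x => χ.map_add s t x),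
      fun x => (χ.continuous continuous_id continuous_const).subtype_mk _, fun p hp => ?_, rfl⟩
    · by_cases hp : p ∈ K
      · exact (o1 (h2 (flow_mem χ h4 t hp)).2).trans (o1 (h2 hp).2).symm
      · rw [Flow.toHomeomorph_apply, h4 t p hp]
    · by_contra hc
      exact hp (Subtype.ext (h4 1 p fun h =>
        let ⟨q, h6, h7⟩ := (h2 h).1; hc (Subtype.ext h7 ▸ h6)))
  have hmov : ∀ (x : lc f₀) (U : Set (lc f₀)), IsOpen U → x ∈ U → ∃ c : ℝ → levelGroup f₀,
      (∀ s t, c (s + t) = c s * c t) ∧ (∀ x : lc f₀, Continuous fun t => c t • x) ∧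
        supp (lc f₀) (c 1) ⊆ U ∧ c 1 ≠ 1 := by
    intro x U hU hx
    have := neBot_of_chart E (x : M)
    obtain ⟨_, ⟨c, c1, c2, c3, rfl⟩, h5⟩ := Filter.nonempty_of_mem (inter_mem
      (mem_nhdsWithin_of_mem_nhds (hfl x U hU hx) : _ ∈ 𝓝[≠] (x : M))
      (self_mem_nhdsWithin (s := {(x : M)}ᶜ)))
    exact ⟨c, c1, c2, c3, fun h => h5 (by rw [h]; rfl)⟩
  have HM : LM (levelGroup f₀) (lc f₀) :=
    ⟨fun g => (g.1.continuous.comp continuous_subtype_val).subtype_mk _,
      fun g h => Subtype.ext (Homeomorph.ext (hfa g fun x hx => congrArg Subtype.val (h ⟨x, hx⟩))),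
      fun U hU ⟨x, hx⟩ => let ⟨c, _, _, h1, h2⟩ := hmov x U hU hx; ⟨c 1, h2, h1⟩⟩
  have TM : LocTr (levelGroup f₀) (lc f₀) := fun x U hU hx => by
    filter_upwards [continuous_subtype_val.continuousAt.preimage_mem_nhds (hfl x U hU hx)]
    rintro z ⟨c, -, -, h1, h2⟩
    exact ⟨c 1, h1, Subtype.ext h2⟩
  obtain ⟨φ, h1, h2, h3, h4⟩ := core' (E' := E') HM TM hmov hf
    ((levelGroup f).subtype.comp Φ.toMonoidHom) (fun a b h => Φ.injective (Subtype.ext h))
    fun T => ⟨fun ⟨g, hg⟩ => hg ▸ (Φ g).2, fun hT => ⟨Φ.symm ⟨T, hT⟩,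
      congrArg Subtype.val (Φ.apply_symm_apply ⟨T, hT⟩)⟩⟩
  exact ⟨φ, h1, fun g x x' h => (h2 g x).trans (congrArg φ (Subtype.ext h)), h3, h4⟩

theorem exists_piece {M : Type*} [TopologicalSpace M] {D : Set M} (hD : IsClopen D) {u v : M → M}
    (hu : ContinuousOn u D) (hv : ContinuousOn v D) (hu' : MapsTo u D D) (hv' : MapsTo v D D)
    (h1 : ∀ x ∈ D, v (u x) = x) (h2 : ∀ x ∈ D, u (v x) = x) :
    ∃ T : M ≃ₜ M, (∀ x ∈ D, T x = u x) ∧ ∀ x ∉ D, T x = x := by
  classical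
  have hc : ∀ {u : M → M}, ContinuousOn u D → Continuous fun x => if x ∈ D then u x else x :=
    fun hu => continuous_if (by
      rw [show {x | x ∈ D} = D from rfl, hD.frontier_eq]; simp)
      (by rwa [show {x | x ∈ D} = D from rfl, hD.isClosed.closure_eq]) continuousOn_id
  have hi : ∀ {u v : M → M}, MapsTo u D D → (∀ x ∈ D, v (u x) = x) → LeftInverse
      (fun x => if x ∈ D then v x else x) fun x => if x ∈ D then u x else x := fun hu h x => by
    by_cases hx : x ∈ D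
    · simp only [if_pos hx, if_pos (hu hx), h x hx]
    · simp only [if_neg hx]
  exact ⟨⟨⟨_, _, hi hu' h1, hi hv' h2⟩, hc hu, hc hv⟩, fun x hx => if_pos hx, fun x hx => if_neg hx⟩

theorem exists_extend {M : Type*} [TopologicalSpace M] {D : Set M} (hD : IsClopen D)
    (g : D ≃ₜ D) : ∃ T : M ≃ₜ M, (∀ x : D, T x = g x) ∧ ∀ x ∉ D, T x = x := by
  classical
  let F : (D ≃ₜ D) → M → M := fun g x => if h : x ∈ D then g ⟨x, h⟩ else x
  have h0 : ∀ (g : D ≃ₜ D) (x : D), F g x = g x := fun g x => dif_pos x.2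
  have h1 : ∀ g, ContinuousOn (F g) D := fun g => continuousOn_iff_continuous_domRestrict.2
    ((continuous_subtype_val.comp g.continuous).congr fun x => (h0 g x).symm)
  have h2 : ∀ g, MapsTo (F g) D D := fun g x hx => h0 g ⟨x, hx⟩ ▸ (g ⟨x, hx⟩).2
  obtain ⟨T, h3, h4⟩ := exists_piece hD (h1 g) (h1 g.symm) (h2 g) (h2 g.symm)
    (fun x hx => by rw [h0 g ⟨x, hx⟩, h0, g.symm_apply_apply])
    (fun x hx => by rw [h0 g.symm ⟨x, hx⟩, h0, g.apply_symm_apply])
  exact ⟨T, fun x => (h3 x x.2).trans (h0 g x), h4⟩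

theorem exists_extend_line {M : Type*} [TopologicalSpace M] {γ : ℝ → M} (hγ : IsOpenEmbedding γ)
    (hc : IsClosed (range γ)) (e : ℝ ≃ₜ ℝ) :
    ∃ T : M ≃ₜ M, (∀ t, T (γ t) = γ (e t)) ∧ ∀ x ∉ range γ, T x = x := by
  obtain ⟨k, k1, k2, -⟩ := exists_inv hγ
  obtain ⟨T, h3, h4⟩ := exists_piece ⟨hc, hγ.isOpen_range⟩ (u := fun x => γ (e (k x)))
    (v := fun x => γ (e.symm (k x))) ((hγ.continuous.comp e.continuous).comp_continuousOn k1)
    ((hγ.continuous.comp e.symm.continuous).comp_continuousOn k1) (fun x _ => ⟨_, rfl⟩)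
    (fun x _ => ⟨_, rfl⟩) (by rintro _ ⟨t, rfl⟩; simp [k2]) (by rintro _ ⟨t, rfl⟩; simp [k2])
  exact ⟨T, fun t => by rw [h3 _ ⟨t, rfl⟩, k2], h4⟩

theorem exists_swap {N : Type*} [TopologicalSpace N] {C : Set N} (hC : IsClopen C) (S : N ≃ₜ N)
    (hd : ∀ y ∈ C, S y ∉ C) : ∃ T : N ≃ₜ N, (∀ y ∈ C, T y = S y) ∧ (∀ y, T (T y) = y) ∧
      ∀ y, T y = S y ∨ T y = S.symm y ∨ T y = y := by
  classical
  let u : N → N := fun y => if y ∈ C then S y else S.symm y
  have hu : Continuous u := Continuous.if (by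
    rw [show {x | x ∈ C} = C from rfl, hC.frontier_eq]; simp) S.continuous S.symm.continuous
  have h1 : ∀ y ∈ C, u y = S y := fun y hy => if_pos hy
  have h2 : ∀ y ∉ C, u y = S.symm y := fun y hy => if_neg hy
  have h3 : ∀ y ∈ C ∪ S.symm ⁻¹' C, u y ∈ C ∪ S.symm ⁻¹' C ∧ u (u y) = y := by
    intro y hy
    by_cases h : y ∈ C
    · rw [h1 y h, h2 _ (hd y h)]
      exact ⟨Or.inr (by simpa using h), S.symm_apply_apply y⟩
    · have h' : S.symm y ∈ C := hy.resolve_left h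
      rw [h2 y h, h1 _ h']
      exact ⟨Or.inl h', S.apply_symm_apply y⟩
  obtain ⟨T, h4, h5⟩ := exists_piece (hC.union (hC.preimage S.symm.continuous)) hu.continuousOn
    hu.continuousOn (fun y hy => (h3 y hy).1) (fun y hy => (h3 y hy).1) (fun y hy => (h3 y hy).2)
    fun y hy => (h3 y hy).2
  refine ⟨T, fun y hy => (h4 y (Or.inl hy)).trans (h1 y hy), fun y => ?_, fun y => ?_⟩
  · by_cases h : y ∈ C ∪ S.symm ⁻¹' C
    · rw [h4 y h, h4 _ (h3 y h).1, (h3 y h).2]
    · rw [h5 y h, h5 y h]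
  · by_cases h : y ∈ C ∪ S.symm ⁻¹' C
    · rw [h4 y h]
      by_cases h' : y ∈ C
      · exact Or.inl (h1 y h')
      · exact Or.inr (Or.inl (h2 y h'))
    · exact Or.inr (Or.inr (h5 y h))

theorem mem_component_iff {N : Type*} [TopologicalSpace N] (T : N ≃ₜ N) {y : N}
    (h : T y ∈ connectedComponent y) (z : N) :
    z ∈ connectedComponent y ↔ T z ∈ connectedComponent y := by
  refine ⟨fun hz => ?_, fun hz => ?_⟩
  · rw [connectedComponent_eq h]
    exact T.continuous.image_connectedComponent_subset y ⟨z, hz, rfl⟩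
  · rw [connectedComponent_eq h] at hz
    simpa using T.symm.continuous.image_connectedComponent_subset (T y) ⟨_, hz, rfl⟩

theorem isClosed_of_components {N : Type*} [TopologicalSpace N] [LocallyConnectedSpace N]
    {R : Set N} (h : ∀ y ∈ R, connectedComponent y ⊆ R) : IsClosed R := by
  rw [← isOpen_compl_iff, isOpen_iff_mem_nhds]
  intro y hy
  filter_upwards [isOpen_connectedComponent.mem_nhds (mem_connectedComponent (x := y))] with z hz h'
  exact hy (h z h' (connectedComponent_eq hz ▸ mem_connectedComponent))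

end Pool.Agent.Lib.MP_b004e2_gt
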