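import Mathlib
import Pool.Agent.Lib.MP_b004e2_gt.CL.Level

/-!
The easy direction, the case of dimension at least two, and gluing along components.
-/

set_option autoImplicit false

namespace Pool.Agent.Lib.MP_b004e2_gt

open Set Filter Topology Metric Function

theorem exists_emb_zero (E E' : Type*) {M N : Type} [NormedAddCommGroup E] [NormedSpace ℝ E]
    [ProperSpace E] [Nontrivial E] [NormedAddCommGroup E'] [NormedSpace ℝ E'] [ProperSpace E']
    [TopologicalSpace M] [T2Space M] [SecondCountableTopology M] [ChartedSpace E M]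
    [TopologicalSpace N] [T2Space N] [SecondCountableTopology N] [ChartedSpace E' N]
    {f : N → ℝ} (hf : Continuous f) (Φ : levelGroup (fun _ : M => (0 : ℝ)) ≃* levelGroup f) :
    ∃ φ : M → N, IsOpenEmbedding φ ∧ (∀ g : M ≃ₜ M, ∃ T : N ≃ₜ N, ∀ x, T (φ x) = φ (g x)) ∧
      (∀ x, φ x ∈ lc f) ∧ ∀ y, (𝓝[≠] y).NeBot → y ∈ lc f → y ∈ range φ := by
  have h0 : ∀ x : M, x ∈ lc fun _ : M => (0 : ℝ) := fun x => Eventually.of_forall fun _ => rfl
  obtain ⟨φ, h1, h2, h3, h4⟩ := core_level E E' (fun T h x => h x (h0 x)) hf Φ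
  refine ⟨fun x => φ ⟨x, h0 x⟩, h1.comp (IsOpenEmbedding.of_comp _
    (isOpen_lc _).isOpenEmbedding_subtypeVal IsOpenEmbedding.id),
    fun g => ⟨(Φ ⟨g, fun _ => rfl⟩).1, fun x => h2 _ _ _ rfl⟩, fun x => h3 _, fun y a b => ?_⟩
  obtain ⟨x, rfl⟩ := h4 y a b
  exact ⟨x, rfl⟩

theorem isClosed_range_high (E E' : Type*) {M N : Type*} [NormedAddCommGroup E] [NormedSpace ℝ E]
    [ProperSpace E] [NormedAddCommGroup E'] [NormedSpace ℝ E'] [ProperSpace E']
    [TopologicalSpace M] [T2Space M] [SecondCountableTopology M] [ChartedSpace E M]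
    [TopologicalSpace N] [T2Space N] [ChartedSpace E' N] (hE : 1 < Module.rank ℝ E')
    {φ : M → N} (hφ : IsOpenEmbedding φ)
    (hext : ∀ g : M ≃ₜ M, ∃ T : N ≃ₜ N, ∀ x, T (φ x) = φ (g x)) {f : N → ℝ} (hf : Continuous f)
    (h1 : ∀ x, φ x ∈ lc f) (h2 : ∀ y ∈ lc f, y ∈ range φ) : IsClosed (range φ) := by
  have := ChartedSpace.locallyConnectedSpace E M
  have := ChartedSpace.locallyConnectedSpace E' N
  refine isClosed_of_components ?_
  rintro _ ⟨x, rfl⟩
  let D : TopologicalSpace.Opens M := ⟨connectedComponent x, isOpen_connectedComponent⟩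
  let C : TopologicalSpace.Opens N := ⟨connectedComponent (φ x), isOpen_connectedComponent⟩
  have hDC : ∀ z ∈ connectedComponent x, φ z ∈ connectedComponent (φ x) := fun z hz =>
    hφ.continuous.image_connectedComponent_subset x ⟨z, hz, rfl⟩
  let ψ : D → C := fun z => ⟨φ z, hDC z z.2⟩
  have : PreconnectedSpace C := Subtype.preconnectedSpace isPreconnected_connectedComponent
  have : Nonempty D := ⟨⟨x, mem_connectedComponent⟩⟩
  have hd := dense_range (E := E) (E' := E') hE (φ := ψ)
    (IsOpenEmbedding.of_comp _ C.isOpenEmbedding' (hφ.comp D.isOpenEmbedding')) fun g => by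
      obtain ⟨G, a, -⟩ := exists_extend (D := connectedComponent x) isClopen_connectedComponent g
      obtain ⟨T, b⟩ := hext G
      refine ⟨T.subtype (mem_component_iff T ?_), fun z => Subtype.ext ?_⟩
      · rw [b, a ⟨x, mem_connectedComponent⟩]
        exact hDC _ (g _).2
      · exact (b z).trans (congrArg φ (a z))
  have hc : ∀ z ∈ connectedComponent (φ x), f z = f (φ x) := fun z hz =>
    (isClosed_eq (hf.comp continuous_subtype_val) continuous_const).closure_subset_iff.2
      (show range ψ ⊆ {y : C | f y = f (φ x)} by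
        rintro _ ⟨w, rfl⟩
        exact lc_const (isPreconnected_connectedComponent.image φ hφ.continuous.continuousOn)
          (by rintro _ ⟨u, -, rfl⟩; exact h1 u) ⟨w, w.2, rfl⟩ ⟨x, mem_connectedComponent, rfl⟩)
      (hd ▸ mem_univ (⟨z, hz⟩ : C))
  intro z hz
  refine h2 z ?_
  filter_upwards [isOpen_connectedComponent.mem_nhds hz] with w hw
  rw [hc w hw, hc z hz]

theorem exists_glue_components {M N : Type*} [TopologicalSpace M] [LocallyConnectedSpace M]
    [TopologicalSpace N] [LocallyConnectedSpace N] (b : Set M → N) (e : Set M → M → N)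
    (h1 : ∀ x, IsOpenEmbedding fun z : connectedComponent x => e (connectedComponent x) z)
    (h2 : ∀ x, e (connectedComponent x) '' connectedComponent x =
      connectedComponent (b (connectedComponent x)))
    (h3 : ∀ x x', connectedComponent (b (connectedComponent x)) =
      connectedComponent (b (connectedComponent x')) → x' ∈ connectedComponent x) :
    ∃ ψ : M → N, IsOpenEmbedding ψ ∧ IsClosed (range ψ) := by
  let ψ : M → N := fun x => e (connectedComponent x) x
  have e1 : ∀ x, ∀ z ∈ connectedComponent x, ψ z = e (connectedComponent x) z := fun x z hz => by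
    simp only [ψ, ← connectedComponent_eq hz]
  have e2 : ∀ x, IsOpenEmbedding fun z : connectedComponent x => ψ z := fun x =>
    (funext fun z : connectedComponent x => e1 x z z.2).symm ▸ h1 x
  have e3 : ∀ x, connectedComponent (ψ x) = connectedComponent (b (connectedComponent x)) :=
    fun x => (connectedComponent_eq (h2 x ▸ ⟨x, mem_connectedComponent, rfl⟩)).symm
  have e4 : ∀ x, map ψ (𝓝 x) = 𝓝 (ψ x) := fun x => by
    rw [← (e2 x).map_nhds_eq ⟨x, mem_connectedComponent⟩,
      ← (isOpen_connectedComponent (x := x)).isOpenEmbedding_subtypeVal.map_nhds_eq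
        ⟨x, mem_connectedComponent⟩]
    rfl
  refine ⟨ψ, .of_continuous_injective_isOpenMap
    (continuous_iff_continuousAt.2 fun x => (e4 x).le) (fun x x' h => ?_)
    (isOpenMap_iff_nhds_le.2 fun x => (e4 x).ge), isClosed_of_components ?_⟩
  · have h4 := h3 x x' (by rw [← e3, ← e3, h])
    exact congrArg Subtype.val ((e2 x).injective (a₁ := ⟨x, mem_connectedComponent⟩)
      (a₂ := ⟨x', h4⟩) h)
  · rintro _ ⟨x, rfl⟩ y hy
    rw [e3, ← h2] at hy
    obtain ⟨z, hz, rfl⟩ := hy
    exact ⟨z, e1 x z hz⟩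

theorem levelGroup_of_clopen {M N : Type} [TopologicalSpace M] [TopologicalSpace N] [T2Space N]
    [LocallyCompactSpace N] [SecondCountableTopology N] {φ : M → N} (hφ : IsOpenEmbedding φ)
    (hc : IsClosed (range φ)) {f₀ : M → ℝ} (hf₀ : Continuous f₀) :
    ∃ f : N → ℝ, Continuous f ∧ Nonempty (levelGroup f₀ ≃* levelGroup f) := by
  classical
  have hR : IsClopen (range φ) := ⟨hc, hφ.isOpen_range⟩
  have := hc.isOpen_compl.locallyCompactSpace
  obtain ⟨r, hr, hr'⟩ := exists_rigid_fun' ((range φ)ᶜ : Set N)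
  let j := hφ.isEmbedding.toHomeomorph
  let f : N → ℝ := fun y => if h : y ∈ range φ then -Real.exp (f₀ (j.symm ⟨y, h⟩))
    else Real.exp (r ⟨y, h⟩)
  have f1 : ∀ y : range φ, f y = -Real.exp (f₀ (j.symm y)) := fun y => dif_pos y.2
  have f2 : ∀ y : ((range φ)ᶜ : Set N), f y = Real.exp (r y) := fun y => dif_neg y.2
  have f3 : ∀ x, f (φ x) = -Real.exp (f₀ x) := fun x => by
    rw [show φ x = j x from rfl, f1, j.symm_apply_apply]
  have f4 : ∀ y, y ∈ range φ ↔ f y < 0 := fun y => by
    by_cases h : y ∈ range φ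
    · exact iff_of_true h (by rw [f1 ⟨y, h⟩]; exact neg_lt_zero.2 (Real.exp_pos _))
    · exact iff_of_false h (by rw [f2 ⟨y, h⟩]; exact (Real.exp_pos _).not_gt)
  have hf : Continuous f := by
    rw [← continuousOn_univ, ← union_compl_self (range φ)]
    refine ContinuousOn.union_of_isClosed (continuousOn_iff_continuous_domRestrict.2 ?_)
      (continuousOn_iff_continuous_domRestrict.2 ?_) hc hR.compl.isClosed
    · exact (Real.continuous_exp.comp (hf₀.comp j.symm.continuous)).neg.congr fun y => (f1 y).symm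
    · exact (Real.continuous_exp.comp hr).congr fun y => (f2 y).symm
  have hm : ∀ (T : levelGroup f) y, y ∈ range φ ↔ T.1 y ∈ range φ := fun T y => by
    rw [f4, f4, T.2]
  let R : levelGroup f → M ≃ₜ M := fun T => j.trans ((T.1.subtype (hm T)).trans j.symm)
  have hR' : ∀ T x, φ (R T x) = T.1 (φ x) := fun T x =>
    congrArg Subtype.val (j.apply_symm_apply ((T.1.subtype (hm T)) (j x)))
  let Ψ : levelGroup f →* levelGroup f₀ := MonoidHom.mk' (fun T => ⟨R T, fun x =>
    Real.exp_injective (neg_injective (by rw [← f3, ← f3, hR', T.2]))⟩) fun S T =>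
      Subtype.ext (Homeomorph.ext fun x => hφ.injective (by
        show φ (R (S * T) x) = φ (R S (R T x))
        rw [hR', hR', hR']
        rfl))
  refine ⟨f, hf, ⟨(MulEquiv.ofBijective Ψ ⟨(injective_iff_map_eq_one _).2 fun T hT => ?_,
    fun S => ?_⟩).symm⟩⟩
  · refine Subtype.ext (Homeomorph.ext fun y => ?_)
    by_cases h : y ∈ range φ
    · obtain ⟨x, rfl⟩ := h
      rw [← hR', show R T = 1 from congrArg Subtype.val hT]
      rfl
    · exact congrArg Subtype.val (hr' (T.1.subtype fun y => (hm T y).not) (fun p =>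
        Real.exp_injective (by rw [← f2, ← f2]; exact T.2 p)) ⟨y, h⟩)
  · obtain ⟨T, a, b⟩ := exists_extend hR (j.symm.trans (S.1.trans j))
    have a' : ∀ x, T (φ x) = φ (S.1 x) := fun x => (a (j x)).trans (by simp; rfl)
    refine ⟨⟨T, fun y => ?_⟩, Subtype.ext (Homeomorph.ext fun x => hφ.injective ?_)⟩
    · by_cases h : y ∈ range φ
      · obtain ⟨x, rfl⟩ := h
        rw [a', f3, f3, S.2]
      · rw [b y h]
    · exact (hR' _ x).trans (a' x)

end Pool.Agent.Lib.MP_b004e2_gt
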