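import Mathlib
import Pool.Agent.Lib.MP_b004e2_gt.CL.High

/-!
Homeomorphisms of a circle which preserve a function.
-/

set_option autoImplicit false

namespace Pool.Agent.Lib.MP_b004e2_gt

open Set Filter Topology Metric Function

theorem const_of_lt {α : Type*} [ConditionallyCompleteLinearOrder α] [TopologicalSpace α]
    [OrderTopology α] {σ : α → α} (hσ : Monotone σ) {g : α → ℝ} (hg : Continuous g)
    (hi : ∀ x, g (σ x) = g x) {x : α} {L : ℝ} (hL : Tendsto g atBot (𝓝 L)) (hx : σ x < x) :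
    ∀ y ∈ Icc (σ x) x, ∀ z ∈ Icc (σ x) x, g y = g z := by
  have ha : Antitone fun n => σ^[n] x := antitone_nat_of_succ_le fun n => by
    rw [iterate_succ_apply]
    exact hσ.iterate n hx.le
  have hit : ∀ n y, g (σ^[n] y) = g y := fun n y => by
    induction n with
    | zero => rfl
    | succ n ih => rw [iterate_succ_apply', hi, ih]
  have key : ∃ L, ∀ y ∈ Icc (σ x) x, Tendsto (fun n => g (σ^[n] y)) atTop (𝓝 L) := by
    by_cases hb : BddBelow (range fun n => σ^[n] x)
    · have h1 := tendsto_atTop_ciInf ha hb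
      refine ⟨_, fun y hy => (hg.tendsto _).comp (tendsto_of_tendsto_of_tendsto_of_le_of_le
        ((tendsto_add_atTop_iff_nat 1).2 h1) h1 (fun n => ?_) fun n => hσ.iterate n hy.2)⟩
      rw [iterate_succ_apply]
      exact hσ.iterate n hy.1
    · exact ⟨L, fun y hy => hL.comp (tendsto_atBot_mono (fun n => hσ.iterate n hy.2)
        (tendsto_atTop_atBot_of_antitone ha fun b => by
          obtain ⟨_, ⟨n, rfl⟩, h⟩ := not_bddBelow_iff.1 hb b
          exact ⟨n, h.le⟩))⟩
  obtain ⟨L, hL⟩ := key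
  intro y hy z hz
  have h1 := hL y hy
  have h2 := hL z hz
  simp only [hit] at h1 h2
  exact (tendsto_const_nhds_iff.1 h1).trans (tendsto_const_nhds_iff.1 h2).symm

theorem eq_of_invol {σ : ℝ → ℝ} (hc : Continuous σ) (hi : ∀ t, σ (σ t) = t) {u v : ℝ}
    (huv : u < v) (h : σ u < σ v) (t : ℝ) : σ t = t := by
  rcases hc.strictMono_of_inj (LeftInverse.injective hi) with hm | hm
  · rcases lt_trichotomy (σ t) t with h1 | h1 | h1
    · exact absurd (hm h1) (by rw [hi]; exact h1.not_gt)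
    · exact h1
    · exact absurd (hm h1) (by rw [hi]; exact h1.not_gt)
  · exact absurd (hm huv) h.not_gt

section

variable {X : Type*} [TopologicalSpace X] [T2Space X] [SecondCountableTopology X]
  [ConnectedSpace X] [CompactSpace X]

theorem Line1.exists_periodic' (h : Line1 X) {f : X → ℝ} (hf : Continuous f)
    (hn : ¬ ∀ y z, f y = f z) {T : X → X} (hT : Continuous T)
    (hi : ∀ p, f (T p) = f p) : ∃ k > 0, ∃ p, T^[k] p = p := by
  have := h.locallyConnectedSpace
  obtain ⟨a₀, -, ha₀⟩ := isCompact_univ.exists_isMinOn univ_nonempty hf.continuousOn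
  obtain ⟨c, -, hc⟩ := isCompact_univ.exists_isMaxOn univ_nonempty hf.continuousOn
  have hlt : f a₀ < f c := lt_of_not_ge fun hge => hn fun y z =>
    le_antisymm (((hc (mem_univ y)).trans hge).trans (ha₀ (mem_univ z)))
      (((hc (mem_univ z)).trans hge).trans (ha₀ (mem_univ y)))
  have hit : ∀ n y, f (T^[n] y) = f y := fun n y => by
    induction n with
    | zero => rfl
    | succ n ih => rw [iterate_succ_apply', hi, ih]
  let U := {x | f x < f c}
  have hU : IsOpen U := isOpen_lt hf continuous_const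
  let A := {x | f x = f a₀}
  have hA : IsClosed A := isClosed_eq hf continuous_const
  have hAU : A ⊆ U := fun x hx => (show f x = f a₀ from hx).trans_lt hlt
  obtain ⟨t, -, ht⟩ := hA.isCompact.elim_nhds_subcover (fun x => connectedComponentIn U x)
    fun x hx => hU.connectedComponentIn.mem_nhds (mem_connectedComponentIn (hAU hx))
  have h1 : ∀ n, ∃ x ∈ t, T^[n] a₀ ∈ connectedComponentIn U x := fun n => by
    simpa using ht (show T^[n] a₀ ∈ A from hit n a₀)
  choose x hx hx' using h1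
  obtain ⟨n, m, hnm, e⟩ := t.finite_toSet.exists_lt_map_eq_of_forall_mem hx
  obtain ⟨k, rfl⟩ := Nat.exists_eq_add_of_lt hnm
  set a := T^[n] a₀
  have haA : a ∈ A := hit n a₀
  have ha : T^[k + 1] a ∈ connectedComponentIn U a := by
    rw [← connectedComponentIn_eq (hx' n), e, ← iterate_add_apply, add_comm (k + 1), ← add_assoc]
    exact hx' _
  obtain ⟨γ, hγ, hr⟩ := h.exists_range hU.connectedComponentIn
    (isConnected_connectedComponentIn_iff.2 (hAU haA)) fun e => lt_irrefl (f c)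
      (connectedComponentIn_subset U a (e ▸ mem_univ c))
  obtain ⟨σ, hσ, hσ'⟩ := exists_conj hγ (hT.iterate (k + 1)) (by
    rw [hr]
    intro y hy
    rw [connectedComponentIn_eq ha]
    refine (isPreconnected_connectedComponentIn.image _
      (hT.iterate (k + 1)).continuousOn).subset_connectedComponentIn
      ⟨a, mem_connectedComponentIn (hAU haA), rfl⟩ ?_ ⟨y, hy, rfl⟩
    rintro _ ⟨z, hz, rfl⟩
    exact (hit _ z).trans_lt (connectedComponentIn_subset U a hz))
  have hB : IsCompact (γ ⁻¹' (A \ (U \ connectedComponentIn U a))) :=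
    hγ.isInducing.isCompact_preimage' (hA.sdiff (isOpen_sdiff_component hU a)).isCompact
      fun y hy => hr ▸ not_not.1 fun h => hy.2 ⟨hAU hy.1, h⟩
  have hmem : ∀ s, s ∈ γ ⁻¹' (A \ (U \ connectedComponentIn U a)) ↔ γ s ∈ A := fun s =>
    ⟨fun h => h.1, fun h => ⟨h, fun h' => h'.2 (hr ▸ ⟨s, rfl⟩)⟩⟩
  have hne : (γ ⁻¹' (A \ (U \ connectedComponentIn U a))).Nonempty := by
    obtain ⟨s, hs⟩ : a ∈ range γ := hr ▸ mem_connectedComponentIn (hAU haA)
    exact ⟨s, (hmem s).2 (hs ▸ haA)⟩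
  have hmap : ∀ s, s ∈ γ ⁻¹' (A \ (U \ connectedComponentIn U a)) →
      σ s ∈ γ ⁻¹' (A \ (U \ connectedComponentIn U a)) := fun s hs => (hmem _).2 (by
    rw [hσ']
    exact (hit _ _).trans ((hmem s).1 hs))
  obtain ⟨b₀, h0, h0'⟩ := hB.exists_isLeast hne
  obtain ⟨b₁, h1, h1'⟩ := hB.exists_isGreatest hne
  obtain ⟨s, -, hs⟩ := intermediate_value_Icc' (h0' h1) (hσ.sub continuous_id).continuousOn
    (show (0 : ℝ) ∈ Icc (σ b₁ - b₁) (σ b₀ - b₀) from
      ⟨sub_nonpos.2 (h1' (hmap _ h1)), sub_nonneg.2 (h0' (hmap _ h0))⟩)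
  exact ⟨k + 1, k.succ_pos, γ s, by rw [← hσ', sub_eq_zero.1 hs]; rfl⟩

theorem Line1.wander_aux (h : Line1 X) (hp : ∀ p : X, IsPreconnected ({p}ᶜ : Set X))
    {f : X → ℝ} (hf : Continuous f) {S : X → X} (hS : Continuous S) (hS' : Injective S)
    (hi : ∀ p, f (S p) = f p) (a : X) : ∃ k > 0, ∃ P : Set X, IsPreconnected P ∧ a ∈ P ∧
      S^[k] a ∈ P ∧ P ⊆ lc f ∪ {a, S^[k] a} := by
  by_cases hn : ∀ y z, f y = f z
  · exact ⟨1, one_pos, univ, isPreconnected_univ, trivial, trivial,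
      fun y _ => Or.inl (Eventually.of_forall fun z => hn z y)⟩
  obtain ⟨k, hk, p, hfix⟩ := h.exists_periodic' hf hn hS hi
  rcases eq_or_ne a p with rfl | hx
  · exact ⟨k, hk, {a}, isPreconnected_singleton, rfl, hfix, fun y hy => Or.inr (Or.inl hy)⟩
  have hit : ∀ n y, f (S^[n] y) = f y := fun n y => by
    induction n with
    | zero => rfl
    | succ n ih => rw [iterate_succ_apply', hi, ih]
  obtain ⟨γ, hγ, hr⟩ := h.exists_range isOpen_compl_singleton ⟨⟨a, hx⟩, hp p⟩
    fun e => (e ▸ mem_univ p : p ∈ ({p}ᶜ : Set X)) rfl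
  obtain ⟨σ, hσ, hσ'⟩ := exists_conj hγ (hS.iterate k) (by
    rw [hr]
    exact fun y hy e => hy (hS'.iterate k (e.trans hfix.symm)))
  have hm := monotone_sq hσ fun a b e => hγ.injective (hS'.iterate k (by rw [← hσ', ← hσ', e]))
  have hlim : Tendsto (f ∘ γ) (cocompact ℝ) (𝓝 (f p)) := by
    refine (hf.tendsto p).comp fun V hV => ?_
    obtain ⟨W, h1, h2, h3⟩ := _root_.mem_nhds_iff.1 hV
    refine mem_of_superset (hγ.isInducing.isCompact_preimage' h2.isClosed_compl.isCompact
      (by rw [hr]; exact compl_subset_compl.2 (singleton_subset_iff.2 h3))).compl_mem_cocompact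
      fun t ht => h1 (not_not.1 ht)
  have hinv : ∀ t, (f ∘ γ) (σ (σ t)) = (f ∘ γ) t := fun t => by
    simp only [comp_apply, hσ', hit]
  obtain ⟨t, rfl⟩ : a ∈ range γ := hr ▸ hx
  have e : S^[k + k] (γ t) = γ (σ (σ t)) := by rw [iterate_add_apply, hσ', hσ']
  have key : ∀ u v, (∀ y ∈ Icc u v, ∀ z ∈ Icc u v, (f ∘ γ) y = (f ∘ γ) z) →
      γ '' Icc u v ⊆ lc f ∪ {γ u, γ v} := by
    rintro u v hc _ ⟨s, hs, rfl⟩
    rcases hs.1.eq_or_lt with rfl | h1
    · exact Or.inr (Or.inl rfl)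
    rcases hs.2.eq_or_lt with rfl | h2
    · exact Or.inr (Or.inr rfl)
    refine Or.inl (mem_of_superset (hγ.isOpenMap.image_mem_nhds (Icc_mem_nhds h1 h2)) ?_)
    rintro _ ⟨y, hy, rfl⟩
    exact hc y hy s hs
  refine ⟨k + k, by omega, ?_⟩
  rw [e]
  rcases lt_trichotomy (σ (σ t)) t with h1 | h1 | h1
  · refine ⟨_, isPreconnected_Icc.image γ hγ.continuous.continuousOn, ⟨_, ⟨h1.le, le_rfl⟩, rfl⟩,
      ⟨_, ⟨le_rfl, h1.le⟩, rfl⟩, ?_⟩
    rw [pair_comm]
    exact key _ _ (const_of_lt hm (hf.comp hγ.continuous) hinv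
      (hlim.mono_left atBot_le_cocompact) h1)
  · exact ⟨{γ t}, isPreconnected_singleton, rfl, congrArg γ h1, fun y hy => Or.inr (Or.inl hy)⟩
  · refine ⟨_, isPreconnected_Icc.image γ hγ.continuous.continuousOn, ⟨_, ⟨le_rfl, h1.le⟩, rfl⟩,
      ⟨_, ⟨h1.le, le_rfl⟩, rfl⟩, key _ _ fun y hy z hz => ?_⟩
    exact const_of_lt (α := ℝᵒᵈ) (σ := fun x => σ (σ x)) hm.dual (g := f ∘ γ)
      (hf.comp hγ.continuous) hinv (x := t) (hlim.mono_left atTop_le_cocompact) h1 y ⟨hy.2, hy.1⟩
      z ⟨hz.2, hz.1⟩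

end

variable {N : Type} [TopologicalSpace N] [T2Space N] [SecondCountableTopology N]

theorem Line1.component (h : Line1 N) (x : N) :
    (∃ γ : ℝ → N, IsOpenEmbedding γ ∧ range γ = connectedComponent x) ∨
      (CompactSpace (connectedComponent x) ∧
        ∀ p : connectedComponent x, IsPreconnected ({p}ᶜ : Set (connectedComponent x))) := by
  have := h.locallyConnectedSpace
  have := isConnected_iff_connectedSpace.1 (isConnected_connectedComponent (x := x))
  have ho := (isOpen_connectedComponent (x := x)).isOpenEmbedding_subtypeVal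
  refine (h.of_isOpenEmbedding ho).classify.imp_left fun ⟨γ⟩ => ⟨_, ho.comp γ.isOpenEmbedding, ?_⟩
  rw [γ.surjective.range_comp, Subtype.range_coe]

theorem Line1.wander (h : Line1 N) {f : N → ℝ} (hf : Continuous f) (S : N ≃ₜ N)
    (hi : ∀ p, f (S p) = f p) {a : N} (ha : S a ∈ connectedComponent a)
    (hc : IsCompact (connectedComponent a)) : ∃ k > 0, ∃ P : Set N, IsPreconnected P ∧ a ∈ P ∧
      S^[k] a ∈ P ∧ P ⊆ lc f ∪ {a, S^[k] a} := by
  have := h.locallyConnectedSpace
  have := isConnected_iff_connectedSpace.1 (isConnected_connectedComponent (x := a))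
  have ho := (isOpen_connectedComponent (x := a)).isOpenEmbedding_subtypeVal
  rcases h.component a with ⟨γ, h1, h2⟩ | ⟨h1, h2⟩
  · rw [← h2, ← image_univ, ← h1.isInducing.isCompact_iff] at hc
    exact absurd hc (noncompact_univ ℝ)
  let T := S.subtype (mem_component_iff S ha)
  have hT : ∀ n y, ((T^[n] y : connectedComponent a) : N) = S^[n] y := fun n y => by
    induction n with
    | zero => rfl
    | succ n ih => rw [iterate_succ_apply', iterate_succ_apply', ← ih]; rfl
  obtain ⟨k, hk, P, p1, p2, p3, p4⟩ := (h.of_isOpenEmbedding ho).wander_aux h2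
    (hf.comp continuous_subtype_val) T.continuous T.injective (fun p => hi p)
    ⟨a, mem_connectedComponent⟩
  refine ⟨k, hk, _, p1.image _ continuous_subtype_val.continuousOn, ⟨_, p2, rfl⟩,
    ⟨_, p3, hT k _⟩, ?_⟩
  rintro _ ⟨y, hy, rfl⟩
  rcases p4 hy with h3 | rfl | rfl
  · left
    show ∀ᶠ w in 𝓝 (y : N), f w = f y
    rw [← ho.map_nhds_eq]
    exact h3
  · exact Or.inr (Or.inl rfl)
  · exact Or.inr (Or.inr (hT k _))

end Pool.Agent.Lib.MP_b004e2_gt
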