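import Mathlib
import Pool.Agent.Lib.MP_b004e2_gt.CL.Circ

/-!
A periodic function on the line with flat pieces.
-/

set_option autoImplicit false

namespace Pool.Agent.Lib.MP_b004e2_gt

open Set Filter Topology Metric Function

/-- The clamped cosine. -/
noncomputable def kap (t : ℝ) : ℝ := max (-1) (min 1 (2 * Real.cos t))

theorem continuous_kap : Continuous kap := by
  unfold kap
  fun_prop

theorem kap_hi {t : ℝ} (h : 1 ≤ 2 * Real.cos t) : kap t = 1 := by
  rw [kap, min_eq_left h, max_eq_right (by norm_num)]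

theorem kap_lo {t : ℝ} (h : 2 * Real.cos t ≤ -1) : kap t = -1 :=
  max_eq_left ((min_le_right _ _).trans h)

theorem kap_mid {t : ℝ} (h : -1 ≤ 2 * Real.cos t) (h' : 2 * Real.cos t ≤ 1) :
    kap t = 2 * Real.cos t := by
  rw [kap, min_eq_right h', max_eq_right h]

theorem lc_hi {t : ℝ} (h : 1 < 2 * Real.cos t) : t ∈ lc kap := by
  filter_upwards [(isOpen_lt (f := fun _ => (1 : ℝ)) (g := fun t => 2 * Real.cos t)
    continuous_const (by fun_prop)).mem_nhds h] with z hz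
  rw [kap_hi h.le, kap_hi (le_of_lt hz)]

theorem lc_lo {t : ℝ} (h : 2 * Real.cos t < -1) : t ∈ lc kap := by
  filter_upwards [(isOpen_lt (g := fun _ => (-1 : ℝ)) (f := fun t => 2 * Real.cos t)
    (by fun_prop) continuous_const).mem_nhds h] with z hz
  rw [kap_lo h.le, kap_lo (le_of_lt hz)]

theorem lc_near {t : ℝ} (h : t ∈ Ioo (-1 : ℝ) 1) : t ∈ lc kap := by
  have := Real.one_sub_sq_div_two_le_cos (x := t)
  exact lc_hi (by nlinarith [h.1, h.2])

theorem kap_rigid {σ : ℝ → ℝ} (hc : Continuous σ) (hi : Injective σ) (hk : ∀ t, kap (σ t) = kap t)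
    (hf : ∀ t ∈ lc kap, σ t = t) : σ = id := by
  have hn : ∀ n : ℤ, σ (n * Real.pi) = n * Real.pi := fun n => hf _ (by
    rcases Int.even_or_odd n with h | h
    · exact lc_hi (by rw [Real.cos_int_mul_pi, h.neg_one_zpow]; norm_num)
    · exact lc_lo (by rw [Real.cos_int_mul_pi, h.neg_one_zpow]; norm_num))
  have hm : StrictMono σ := (hc.strictMono_of_inj hi).resolve_right fun h => by
    have := h (show ((0 : ℤ) : ℝ) * Real.pi < ((1 : ℤ) : ℝ) * Real.pi by simp [Real.pi_pos])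
    rw [hn, hn] at this
    simp at this
    linarith [Real.pi_pos]
  refine Continuous.ext_on (((countable_cos_fiber (Real.pi / 3)).union
    (countable_cos_fiber (Real.pi - Real.pi / 3))).dense_compl ℝ) hc continuous_id fun t ht => ?_
  simp only [Real.cos_pi_sub, Real.cos_pi_div_three, mem_compl_iff, mem_union, mem_ofPred_eq,
    not_or] at ht
  rcases lt_trichotomy 1 (2 * Real.cos t) with h1 | h1 | h1
  · exact hf t (lc_hi h1)
  · exact absurd (by linarith) ht.1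
  rcases lt_trichotomy (2 * Real.cos t) (-1) with h2 | h2 | h2
  · exact hf t (lc_lo h2)
  · exact absurd (by linarith) ht.2
  have e : Real.cos (σ t) = Real.cos t := by
    have h3 := hk t
    rw [kap_mid h2.le h1.le] at h3
    rcases le_total 1 (2 * Real.cos (σ t)) with h4 | h4
    · rw [kap_hi h4] at h3
      linarith
    rcases le_total (2 * Real.cos (σ t)) (-1) with h5 | h5
    · rw [kap_lo h5] at h3
      linarith
    rw [kap_mid h5 h4] at h3
    linarith
  have a1 : (⌊t / Real.pi⌋ : ℝ) * Real.pi ≤ t := (le_div_iff₀ Real.pi_pos).1 (Int.floor_le _)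
  have a2 : t ≤ ((⌊t / Real.pi⌋ + 1 : ℤ) : ℝ) * Real.pi := by
    push_cast
    exact (div_le_iff₀ Real.pi_pos).1 (Int.lt_floor_add_one _).le
  have a3 := hm.monotone a1
  have a4 := hm.monotone a2
  rw [hn] at a3 a4
  push_cast at a2 a4
  have := Real.injOn_cos (x₁ := σ t - ⌊t / Real.pi⌋ * Real.pi) (x₂ := t - ⌊t / Real.pi⌋ * Real.pi)
    ⟨by linarith, by linarith⟩ ⟨by linarith, by linarith⟩
    (by rw [Real.cos_sub_int_mul_pi, Real.cos_sub_int_mul_pi, e])
  exact sub_left_injective this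

section

variable {M N : Type} [TopologicalSpace M] [TopologicalSpace N] {f₀ : M → ℝ} {γ : ℝ → M}

theorem mem_lc (hγ : IsOpenEmbedding γ) (hκ : ∀ t, f₀ (γ t) = kap t) {t : ℝ} (ht : t ∈ lc kap) :
    γ t ∈ lc f₀ := by
  show ∀ᶠ z in 𝓝 (γ t), f₀ z = f₀ (γ t)
  rw [← hγ.map_nhds_eq, eventually_map]
  simp only [hκ]
  exact ht

theorem exists_sym (hγ : IsOpenEmbedding γ) (hc : IsClosed (range γ)) (hκ : ∀ t, f₀ (γ t) = kap t)
    (e : ℝ ≃ₜ ℝ) (he : ∀ t, kap (e t) = kap t) :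
    ∃ g : levelGroup f₀, (∀ t, g.1 (γ t) = γ (e t)) ∧ ∀ x ∉ range γ, g.1 x = x := by
  obtain ⟨T, h1, h2⟩ := exists_extend_line hγ hc e
  refine ⟨⟨T, fun x => ?_⟩, h1, h2⟩
  by_cases h : x ∈ range γ
  · obtain ⟨t, rfl⟩ := h
    rw [h1, hκ, hκ, he]
  · rw [h2 x h]

theorem exists_conj' (hγ : IsOpenEmbedding γ) (hc : IsClosed (range γ)) (T : M ≃ₜ M)
    (h : T (γ 0) ∈ range γ) : ∃ σ : ℝ → ℝ, Continuous σ ∧ ∀ t, γ (σ t) = T (γ t) :=
  exists_conj hγ T.continuous (mapsTo_iff_image_subset.2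
    (((isPreconnected_range hγ.continuous).image T T.continuous.continuousOn).subset_isClopen
      ⟨hc, hγ.isOpen_range⟩ ⟨_, ⟨_, ⟨0, rfl⟩, rfl⟩, h⟩))

variable [T2Space N] [SecondCountableTopology N] {f : N → ℝ} {φ : lc f₀ → N}
  {Φ : levelGroup f₀ ≃* levelGroup f}

theorem line_not_compact (hN : Line1 N) (hf : Continuous f) (hφ : IsOpenEmbedding φ)
    (heq : ∀ (g : levelGroup f₀) (x x' : lc f₀), g.1 x = x' → (Φ g).1 (φ x) = φ x')
    (hs : ∀ y ∈ lc f, y ∈ range φ) (hγ : IsOpenEmbedding γ) (hc : IsClosed (range γ))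
    (hκ : ∀ t, f₀ (γ t) = kap t) (a : lc f₀) (ha : a.1 = γ 0) :
    ¬ IsCompact (connectedComponent (φ a)) := by
  intro hC
  have := hN.locallyConnectedSpace
  obtain ⟨s, s1, -⟩ := exists_sym hγ hc hκ (Homeomorph.addRight (2 * Real.pi)) fun t => by
    simp [kap]
  replace s1 : ∀ t, s.1 (γ t) = γ (t + 2 * Real.pi) := s1
  have c1 : (Φ s).1 (φ a) ∈ connectedComponent (φ a) := by
    by_contra hn
    obtain ⟨T, t1, t2, t3⟩ := exists_swap (isClopen_connectedComponent (x := φ a)) (Φ s).1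
      fun y hy hy' => hn (by
        rw [connectedComponent_eq hy] at hy' ⊢
        refine (mem_component_iff _ hy' _).1 ?_
        rw [← connectedComponent_eq hy]
        exact mem_connectedComponent)
    have hT : ∀ y, f (T y) = f y := fun y => by
      rcases t3 y with h | h | h <;> rw [h]
      · exact (Φ s).2 y
      · exact (Φ s)⁻¹.2 y
    let g := Φ.symm ⟨T, hT⟩
    have hg : (Φ g).1 = T := congrArg Subtype.val (Φ.apply_symm_apply _)
    have hgg : g * g = 1 := Φ.injective (by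
      rw [map_mul, map_one]
      exact Subtype.ext (Homeomorph.ext fun y => by
        show (Φ g).1 ((Φ g).1 y) = y
        rw [hg, t2]))
    let c : Ioo (-1 : ℝ) 1 → lc f₀ := fun t => ⟨γ t, mem_lc hγ hκ (lc_near t.2)⟩
    have hcc : Continuous c := (hγ.continuous.comp continuous_subtype_val).subtype_mk _
    have : PreconnectedSpace (Ioo (-1 : ℝ) 1) := Subtype.preconnectedSpace isPreconnected_Ioo
    have key : ∀ t ∈ Ioo (-1 : ℝ) 1, g.1 (γ t) = γ (t + 2 * Real.pi) := fun t ht => by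
      have h1 : φ (c ⟨t, ht⟩) ∈ connectedComponent (φ a) :=
        (isPreconnected_range (hφ.continuous.comp hcc)).subset_connectedComponent
          ⟨⟨0, by norm_num⟩, congrArg φ (Subtype.ext ha.symm)⟩ ⟨_, rfl⟩
      have h2 := heq g (c ⟨t, ht⟩) ⟨_, lc_map g.1 g.2 (c ⟨t, ht⟩).2⟩ rfl
      rw [hg, t1 _ h1, heq s (c ⟨t, ht⟩) ⟨_, lc_map s.1 s.2 (c ⟨t, ht⟩).2⟩ rfl] at h2
      exact (congrArg Subtype.val (hφ.injective h2)).symm.trans (s1 t)
    obtain ⟨σ, h1, h2⟩ := exists_conj' hγ hc g.1 (by rw [key 0 (by norm_num)]; exact ⟨_, rfl⟩)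
    have e : ∀ t ∈ Ioo (-1 : ℝ) 1, σ t = t + 2 * Real.pi := fun t ht =>
      hγ.injective (by rw [h2, key t ht])
    have := eq_of_invol h1 (fun t => hγ.injective (by
      rw [h2, h2]
      exact congrArg (fun k : levelGroup f₀ => k.1 (γ t)) hgg)) (u := 0) (v := 1 / 2)
      (by norm_num) (by rw [e 0 (by norm_num), e _ (by norm_num)]; norm_num) 0
    rw [e 0 (by norm_num)] at this
    linarith [Real.pi_pos]
  obtain ⟨k, hk, P, p1, p2, p3, p4⟩ := hN.wander hf (Φ s).1 (Φ s).2 c1 hC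
  have hit : ∀ n : ℕ, ∃ x : lc f₀, x.1 = γ (n * (2 * Real.pi)) ∧ (Φ s).1^[n] (φ a) = φ x := by
    intro n
    induction n with
    | zero => exact ⟨a, by simpa using ha, rfl⟩
    | succ n ih =>
      obtain ⟨x, x1, x2⟩ := ih
      refine ⟨⟨_, lc_map s.1 s.2 x.2⟩, ?_, by rw [iterate_succ_apply', x2]; exact heq s x _ rfl⟩
      show s.1 x = _
      rw [x1, s1]
      push_cast
      ring_nf
  obtain ⟨b, b1, b2⟩ := hit k
  rw [b2] at p3 p4
  have q1 : IsPreconnected (φ ⁻¹' P) := hφ.isInducing.isPreconnected_image.1 (by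
    rwa [image_preimage_eq_of_subset fun y hy => ?_]
    rcases p4 hy with h | rfl | rfl
    exacts [hs y h, ⟨a, rfl⟩, ⟨b, rfl⟩])
  have q2 := q1.image _ continuous_subtype_val.continuousOn
  have q3 : IsPreconnected (γ ⁻¹' (Subtype.val '' (φ ⁻¹' P))) :=
    hγ.isInducing.isPreconnected_image.1 (by
      rwa [image_preimage_eq_of_subset (q2.subset_isClopen ⟨hc, hγ.isOpen_range⟩
        ⟨_, ⟨a, p2, ha⟩, 0, rfl⟩)])
  have q4 : Real.pi ∈ γ ⁻¹' (Subtype.val '' (φ ⁻¹' P)) :=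
    q3.Icc_subset ⟨a, p2, ha⟩ ⟨b, p3, b1⟩ ⟨Real.pi_pos.le, by
      have : (1 : ℝ) ≤ k := by exact_mod_cast hk
      nlinarith [Real.pi_pos]⟩
  have := lc_const q2 (by rintro _ ⟨x, -, rfl⟩; exact x.2) q4 ⟨a, p2, ha⟩
  rw [hκ, hκ, kap_lo (by simp), kap_hi (by simp)] at this
  norm_num at this

omit [T2Space N] [SecondCountableTopology N] in
theorem line_alone (hφ : IsOpenEmbedding φ)
    (heq : ∀ (g : levelGroup f₀) (x x' : lc f₀), g.1 x = x' → (Φ g).1 (φ x) = φ x')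
    (hγ : IsOpenEmbedding γ) (hc : IsClosed (range γ)) (hκ : ∀ t, f₀ (γ t) = kap t)
    (a : lc f₀) (ha : a.1 = γ 0) {δ : ℝ → N} (hδ : IsOpenEmbedding δ)
    (hr : range δ = connectedComponent (φ a)) (x : lc f₀) (hx : φ x ∈ range δ) :
    x.1 ∈ range γ := by
  by_contra hn
  obtain ⟨r, r1, r2⟩ := exists_sym hγ hc hκ (Homeomorph.neg ℝ) fun t => by simp [kap]
  replace r1 : ∀ t, r.1 (γ t) = γ (-t) := r1
  have h0 : (Φ r).1 (φ a) = φ a := heq r a a (by rw [ha, r1, neg_zero])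
  obtain ⟨σ, h1, h2⟩ := exists_conj hδ (Φ r).1.continuous (by
    rw [hr]
    exact fun y hy => (mem_component_iff _ (by rw [h0]; exact mem_connectedComponent) y).1 hy)
  obtain ⟨t, ht⟩ := hx
  obtain ⟨u, v, huv, hO⟩ := ((hφ.isOpenMap _ (hc.isOpen_compl.preimage
    continuous_subtype_val)).preimage hδ.continuous).exists_Ioo_subset ⟨t, x, hn, ht.symm⟩
  have e : ∀ s ∈ Ioo u v, σ s = s := fun s hs => by
    obtain ⟨y, y1, y2⟩ := hO hs
    exact hδ.injective (by rw [h2, ← y2]; exact heq r y y (r2 _ y1))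
  obtain ⟨w, w1, w2⟩ := exists_between huv
  obtain ⟨w', w3, w4⟩ := exists_between w2
  have hrr : r * r = 1 := Subtype.ext (Homeomorph.ext fun y => by
    show r.1 (r.1 y) = y
    by_cases h : y ∈ range γ
    · obtain ⟨t, rfl⟩ := h
      rw [r1, r1, neg_neg]
    · rw [r2 y h, r2 y h])
  have hid := eq_of_invol h1 (fun t => hδ.injective (by
    rw [h2, h2]
    have : Φ r * Φ r = 1 := by rw [← map_mul, hrr, map_one]
    exact congrArg (fun k : levelGroup f => k.1 (δ t)) this)) w3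
    (by rwa [e w ⟨w1, w2⟩, e w' ⟨w1.trans w3, w4⟩])
  let c : Ioo (-1 : ℝ) 1 → lc f₀ := fun t => ⟨γ t, mem_lc hγ hκ (lc_near t.2)⟩
  have hcc : Continuous c := (hγ.continuous.comp continuous_subtype_val).subtype_mk _
  have : PreconnectedSpace (Ioo (-1 : ℝ) 1) := Subtype.preconnectedSpace isPreconnected_Ioo
  obtain ⟨s, hs⟩ : φ (c ⟨1 / 2, by norm_num⟩) ∈ range δ := hr ▸
    (isPreconnected_range (hφ.continuous.comp hcc)).subset_connectedComponent
      ⟨⟨0, by norm_num⟩, congrArg φ (Subtype.ext ha.symm)⟩ ⟨_, rfl⟩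
  have h3 := h2 s
  rw [hid, hs, heq r _ (c ⟨-(1 / 2), by norm_num⟩) (r1 _)] at h3
  have h4 : (1 / 2 : ℝ) = -(1 / 2) := hγ.injective (congrArg Subtype.val (hφ.injective h3))
  norm_num at h4

end

end Pool.Agent.Lib.MP_b004e2_gt
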