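import Mathlib
import Pool.Agent.Lib.MP_b004e2_gt.CL.Kap

/-!
The case of dimension one, and the general case.
-/

set_option autoImplicit false

namespace Pool.Agent.Lib.MP_b004e2_gt

open Set Filter Topology Metric Function

theorem exists_kap_fun {M : Type} [TopologicalSpace M] [T2Space M] [SecondCountableTopology M]
    [Nonempty M] (hM : Line1 M) : ∃ f₀ : M → ℝ, Continuous f₀ ∧ ∀ x,
      (IsCompact (connectedComponent x) ∧ connectedComponent x ⊆ lc f₀) ∨
        ∃ γ : ℝ → M, IsOpenEmbedding γ ∧ range γ = connectedComponent x ∧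
          ∀ t, f₀ (γ t) = kap t := by
  classical
  have := hM.locallyConnectedSpace
  have h0 : ∀ D : Set M, (∃ x, D = connectedComponent x ∧ ¬ IsCompact D) →
      ∃ (γ : ℝ → M) (k : M → ℝ), IsOpenEmbedding γ ∧ range γ = D ∧ ContinuousOn k D ∧
        ∀ t, k (γ t) = t := by
    rintro _ ⟨x, rfl, hx⟩
    obtain ⟨γ, h1, h2⟩ := (hM.component x).resolve_right fun h =>
      hx (isCompact_iff_compactSpace.2 h.1)
    obtain ⟨k, k1, k2, -⟩ := exists_inv h1
    exact ⟨γ, k, h1, h2, h2 ▸ k1, k2⟩
  choose! γ k h1 h2 h3 h4 using h0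
  let f₀ : M → ℝ := fun x =>
    if IsCompact (connectedComponent x) then 0 else kap (k (connectedComponent x) x)
  have e : ∀ x, ∀ z ∈ connectedComponent x, f₀ z =
      if IsCompact (connectedComponent x) then 0 else kap (k (connectedComponent x) z) :=
    fun x z hz => by simp only [f₀, ← connectedComponent_eq hz]
  refine ⟨f₀, continuous_iff_continuousAt.2 fun x => ?_, fun x => ?_⟩
  · refine ContinuousOn.continuousAt (ContinuousOn.congr ?_ (e x))
      (isOpen_connectedComponent.mem_nhds mem_connectedComponent)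
    by_cases h : IsCompact (connectedComponent x)
    · simp only [if_pos h]
      exact continuousOn_const
    · simp only [if_neg h]
      exact continuous_kap.comp_continuousOn (h3 _ ⟨x, rfl, h⟩)
  · by_cases h : IsCompact (connectedComponent x)
    · refine Or.inl ⟨h, fun y hy => ?_⟩
      filter_upwards [isOpen_connectedComponent.mem_nhds hy] with z hz
      rw [e x z hz, e x y hy, if_pos h, if_pos h]
    · refine Or.inr ⟨_, h1 _ ⟨x, rfl, h⟩, h2 _ ⟨x, rfl, h⟩, fun t => ?_⟩
      rw [e x _ ((h2 _ ⟨x, rfl, h⟩).le ⟨t, rfl⟩), if_neg h, h4 _ ⟨x, rfl, h⟩]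

theorem line_case (E E' : Type*) {M N : Type} [NormedAddCommGroup E] [NormedSpace ℝ E]
    [ProperSpace E] [Nontrivial E] [NormedAddCommGroup E'] [NormedSpace ℝ E'] [ProperSpace E']
    [Nontrivial E'] [TopologicalSpace M] [T2Space M] [SecondCountableTopology M] [ChartedSpace E M]
    [TopologicalSpace N] [T2Space N] [SecondCountableTopology N] [ChartedSpace E' N]
    (hM : Line1 M) (hN : Line1 N) (H : ∀ f₀ : M → ℝ, Continuous f₀ →
      ∃ f : N → ℝ, Continuous f ∧ Nonempty (levelGroup f₀ ≃* levelGroup f)) :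
    ∃ ψ : M → N, IsOpenEmbedding ψ ∧ IsClosed (range ψ) := by
  classical
  rcases isEmpty_or_nonempty M with hE | hE
  · exact ⟨isEmptyElim, .of_isEmpty _, by rw [range_eq_empty]; exact isClosed_empty⟩
  have := hM.locallyConnectedSpace
  have := hN.locallyConnectedSpace
  obtain ⟨f₀, hf₀, hD⟩ := exists_kap_fun hM
  obtain ⟨f, hf, ⟨Φ⟩⟩ := H f₀ hf₀
  obtain ⟨φ, hφ, heq, -, hs⟩ := core_level E E' (fun T hT x => by
    rcases hD x with ⟨-, h⟩ | ⟨γ, h1, h2, h3⟩
    · exact hT x (h mem_connectedComponent)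
    · obtain ⟨σ, s1, s2⟩ := exists_conj' h1 (h2 ▸ isClosed_connectedComponent) T.1 (by
        rw [hT _ (mem_lc h1 h3 (lc_near (by norm_num)))]; exact ⟨0, rfl⟩)
      obtain ⟨t, rfl⟩ : x ∈ range γ := h2 ▸ mem_connectedComponent
      rw [← s2, kap_rigid s1 (fun a b e => h1.injective (T.1.injective (by rw [← s2, ← s2, e])))
        (fun t => by rw [← h3, s2, T.2, h3])
        fun t ht => h1.injective (by rw [s2, hT _ (mem_lc h1 h3 ht)])]
      rfl) hf Φ
  have key : ∀ D : Set M, (∃ x, D = connectedComponent x) → ∃ (b : N) (e : M → N),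
      IsOpenEmbedding (fun z : D => e z) ∧ e '' D = connectedComponent b ∧
        (∃ a : lc f₀, a.1 ∈ D ∧ φ a = b) ∧ ∀ x : lc f₀, φ x ∈ connectedComponent b → x.1 ∈ D := by
    rintro _ ⟨x, rfl⟩
    rcases hD x with ⟨h1, h2⟩ | ⟨γ, h1, h2, h3⟩
    · let a : lc f₀ := ⟨x, h2 mem_connectedComponent⟩
      let e : M → N := fun z => if h : z ∈ lc f₀ then φ ⟨z, h⟩ else φ a
      have e1 : (fun z : connectedComponent x => e z) = φ ∘ inclusion h2 :=
        funext fun z => dif_pos (h2 z.2)
      have e2 : IsOpenEmbedding fun z : connectedComponent x => e z := e1 ▸ hφ.comp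
        (.inclusion h2 (isOpen_connectedComponent.preimage continuous_subtype_val))
      have e3 : e '' connectedComponent x = connectedComponent (φ a) := by
        have := isCompact_iff_compactSpace.1 h1
        have := Subtype.preconnectedSpace (isPreconnected_connectedComponent (x := x))
        have hm : φ a ∈ range fun z : connectedComponent x => e z :=
          ⟨⟨x, mem_connectedComponent⟩, dif_pos a.2⟩
        rw [image_eq_range]
        exact ((isPreconnected_range e2.continuous).subset_connectedComponent hm).antisymm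
          (IsClopen.connectedComponent_subset
            ⟨(isCompact_range e2.continuous).isClosed, e2.isOpen_range⟩ hm)
      refine ⟨φ a, e, e2, e3, ⟨a, mem_connectedComponent, rfl⟩, fun y hy => ?_⟩
      obtain ⟨z, hz, h⟩ := e3 ▸ hy
      rw [← hφ.injective ((dif_pos (h2 hz)).symm.trans h)]
      exact hz
    · let a : lc f₀ := ⟨γ 0, mem_lc h1 h3 (lc_near (by norm_num))⟩
      have hc : IsClosed (range γ) := h2 ▸ isClosed_connectedComponent
      obtain ⟨δ, d1, d2⟩ := (hN.component (φ a)).resolve_right fun h =>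
        line_not_compact hN hf hφ heq (fun y => hs y (neBot_of_chart E' y)) h1 hc h3 a rfl
          (isCompact_iff_compactSpace.2 h.1)
      obtain ⟨k, -, k2, -⟩ := exists_inv h1
      rw [← h2]
      refine ⟨φ a, fun z => δ (k z), ?_, ?_, ⟨a, ⟨0, rfl⟩, rfl⟩,
        fun y hy => line_alone hφ heq h1 hc h3 a rfl d1 d2 y (d2 ▸ hy)⟩
      · have : (fun z : range γ => δ (k z)) = δ ∘ h1.isEmbedding.toHomeomorph.symm := by
          funext z
          obtain ⟨t, rfl⟩ := h1.isEmbedding.toHomeomorph.surjective z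
          rw [comp_apply, Homeomorph.symm_apply_apply]
          exact congrArg δ (k2 t)
        rw [this]
        exact d1.comp (Homeomorph.isOpenEmbedding _)
      · rw [← d2, ← range_comp]
        exact congrArg range (funext fun t => congrArg δ (k2 t))
  have : Nonempty N := let ⟨b, _⟩ := key _ ⟨Classical.arbitrary M, rfl⟩; ⟨b⟩
  choose! b e k1 k2 k3 k4 using key
  refine exists_glue_components b e (fun x => k1 _ ⟨x, rfl⟩) (fun x => k2 _ ⟨x, rfl⟩)
    fun x x' h => ?_
  obtain ⟨a, a1, a2⟩ := k3 _ ⟨x', rfl⟩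
  have := k4 _ ⟨x, rfl⟩ a (by rw [h, a2]; exact mem_connectedComponent)
  rw [connectedComponent_eq this, ← connectedComponent_eq a1]
  exact mem_connectedComponent

theorem clopen_case (m n : ℕ) (hm : 1 ≤ m) (M N : Type) [TopologicalSpace M] [T2Space M]
    [SecondCountableTopology M] [ChartedSpace (EuclideanSpace ℝ (Fin m)) M]
    [TopologicalSpace N] [T2Space N] [SecondCountableTopology N]
    [ChartedSpace (EuclideanSpace ℝ (Fin n)) N] (H : ∀ f₀ : M → ℝ, Continuous f₀ →
      ∃ f : N → ℝ, Continuous f ∧ Nonempty (levelGroup f₀ ≃* levelGroup f)) :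
    ∃ ψ : M → N, IsOpenEmbedding ψ ∧ IsClosed (range ψ) := by
  obtain ⟨m, rfl⟩ := Nat.exists_eq_add_of_le' hm
  obtain ⟨f, hf, ⟨Φ⟩⟩ := H (fun _ => 0) continuous_const
  obtain ⟨φ, h1, h2, h3, h4⟩ := exists_emb_zero (EuclideanSpace ℝ (Fin (m + 1)))
    (EuclideanSpace ℝ (Fin n)) hf Φ
  rcases n with _ | _ | n
  · have := ChartedSpace.discreteTopology (EuclideanSpace ℝ (Fin 0)) N
    exact ⟨φ, h1, isClosed_discrete _⟩
  · have hN := line1_of_charted N
    exact line_case (EuclideanSpace ℝ (Fin (m + 1))) (EuclideanSpace ℝ (Fin (0 + 1)))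
      (hN.of_isOpenEmbedding h1) hN H
  · exact ⟨φ, h1, isClosed_range_high (EuclideanSpace ℝ (Fin (m + 1)))
      (EuclideanSpace ℝ (Fin (n + 1 + 1))) (by
        rw [← Module.finrank_eq_rank, finrank_euclideanSpace_fin]
        exact_mod_cast (by omega : 1 < n + 1 + 1)) h1 h2 hf h3
      fun y => h4 y (neBot_of_chart (EuclideanSpace ℝ (Fin (n + 1 + 1))) y)⟩

end Pool.Agent.Lib.MP_b004e2_gt
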